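import Pool.Agent.Lib.MP_83ec3d_an.Final

open Pool.Agent.Lib.MP_83ec3d_an

namespace Pool.Agent.Results.MP_83ec3d_an.Doubling

/-- Q1 for all weights whose reciprocal partial sums are doubling. -/
theorem result (ω : ℕ → ℝ) (hω : Admissible ω) (C : ℝ)
    (h : ∀ n, ∑ k ∈ Finset.range (2 * n), 1 / ω k ≤ C * ∑ k ∈ Finset.range n, 1 / ω k) :
    HasProperty ω ↔ ¬ Summable fun k => 1 / ω k :=
  ⟨has_sum hω, doubling_has hω (C := C) (by simpa only [one_div, ps] using h)⟩

end Pool.Agent.Results.MP_83ec3d_an.Doubling
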