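import Pool.Agent.Lib.MP_83ec3d_an.Final

open Pool.Agent.Lib.MP_83ec3d_an

namespace Pool.Agent.Results.MP_83ec3d_an.MonotoneRatio

/-- Q1 for all weights that are eventually log-convex or eventually log-concave. -/
theorem result (ω : ℕ → ℝ) (hω : Admissible ω) (k₀ : ℕ)
    (h : MonotoneOn (fun k => ω (k + 1) / ω k) (Set.Ici k₀) ∨
      AntitoneOn (fun k => ω (k + 1) / ω k) (Set.Ici k₀)) :
    HasProperty ω ↔ (¬ Summable fun k => 1 / ω k) ∧
      ∀ ε : ℝ, 0 < ε → ∃ c : ℝ, 0 < c ∧ ∀ k : ℕ, c * Real.exp (-(k : ℝ) ^ ε) ≤ ω k :=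
  monotone_iff hω h

end Pool.Agent.Results.MP_83ec3d_an.MonotoneRatio
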