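import Pool.Agent.Lib.MP_83ec3d_an.Final

open Pool.Agent.Lib.MP_83ec3d_an

namespace Pool.Agent.Results.MP_83ec3d_an.Necessary

/-- A necessary condition in Q1, for all weights: decay slower than every `exp (-k ^ ε)`. -/
theorem result (ω : ℕ → ℝ) (hω : Admissible ω) (h : HasProperty ω) (ε : ℝ) (hε : 0 < ε) :
    ∃ c : ℝ, 0 < c ∧ ∀ k : ℕ, c * Real.exp (-(k : ℝ) ^ ε) ≤ ω k :=
  has_growth hω h hε

end Pool.Agent.Results.MP_83ec3d_an.Necessary
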