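import Pool.Agent.Lib.MP_83ec3d_an.Final

open Pool.Agent.Lib.MP_83ec3d_an

namespace Pool.Agent.Results.MP_83ec3d_an.SimpleZeros

/-- Q1 restricted to polynomials with simple zeros, for all weights. -/
theorem result (ω : ℕ → ℝ) (hω : Admissible ω) :
    (∀ f : Polynomial ℂ, (∀ z, f.IsRoot z → 1 ≤ ‖z‖) → (∀ z, f.rootMultiplicity z ≤ 1) →
      Converges ω f) ↔ ¬ Summable fun k => 1 / ω k :=
  simple_iff hω

end Pool.Agent.Results.MP_83ec3d_an.SimpleZeros
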